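import Pool.Agent.helper73.ASU.Spec

set_option autoImplicit false

/-!
# ASU (MP_f6e9a2_nt), row BS1: the average over the characters
-/

namespace Pool.Agent.ASU

open Finset

/-- orthogonality -/
private lemma BS1_orth (p : ℕ) [Fact p.Prime] (u v : ZMod p) :
    ∑ χ : DirichletCharacter ℂ p, χ u * (starRingEnd ℂ) (χ v)
      = if v = u ∧ v ≠ 0 then (p.totient : ℂ) else 0 := by
  by_cases hv : v = 0
  · subst hv
    rw [if_neg (by simp)]
    refine Finset.sum_eq_zero fun χ _ => ?_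
    rw [MulChar.map_zero, map_zero, mul_zero]
  · have h1 := DirichletCharacter.sum_char_inv_mul_char_eq ℂ (n := p) (a := v)
      (isUnit_iff_ne_zero.mpr hv) u
    have h2 : ∑ χ : DirichletCharacter ℂ p, χ u * (starRingEnd ℂ) (χ v)
        = ∑ χ : DirichletCharacter ℂ p, χ v⁻¹ * χ u := by
      refine Finset.sum_congr rfl fun χ _ => ?_
      have h3 : (starRingEnd ℂ) (χ v) = χ v⁻¹ := by
        rw [← MulChar.inv_apply', ← MulChar.star_apply']
        rfl
      rw [h3, mul_comm]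
    rw [h2, h1]
    simp only [ne_eq, hv, not_false_eq_true, and_true]

/-- **BS1** (project ASU) -/
theorem BS1 (hSQ4 : SQ4_stmt) : BS1_stmt := by
  classical
  intro k hk ε hε
  obtain ⟨C, hC, hS⟩ := hSQ4 k hk ε hε
  refine ⟨C, hC, ?_⟩
  intro p hpp N hN hNp
  have hp0 : (0 : ℝ) < p := by exact_mod_cast hpp.out.pos
  -- the two products
  set U : (Fin k → ℕ) → (Fin k → ℕ) → ℤ := fun a b => ∏ i, ((a i : ℤ) - b i) with hU
  set V : (Fin k → ℕ) → (Fin k → ℕ) → ℤ := fun a b => ∏ i, (((rot a i : ℕ) : ℤ) - b i) with hV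
  have hDD : ∀ a b, DD a b = U a b * V a b := by
    intro a b
    unfold DD
    rw [Finset.prod_mul_distrib]
  have e1 : ∀ (χ : DirichletCharacter ℂ p) (a b : Fin k → ℕ),
      ∏ i : Fin k, (CM χ (a i) (b i) * (starRingEnd ℂ) (CM χ (rot a i) (b i)))
        = χ ((U a b : ℤ) : ZMod p) * (starRingEnd ℂ) (χ ((V a b : ℤ) : ZMod p)) := by
    intro χ a b
    rw [Finset.prod_mul_distrib, ← map_prod]
    have f1 : ∏ i : Fin k, CM χ (a i) (b i) = χ ((U a b : ℤ) : ZMod p) := by
      rw [hU]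
      push_cast
      rw [map_prod]
      rfl
    have f2 : ∏ i : Fin k, CM χ (rot a i) (b i) = χ ((V a b : ℤ) : ZMod p) := by
      rw [hV]
      push_cast
      rw [map_prod]
      rfl
    rw [f1, f2]
  have e2 : ∑ χ : DirichletCharacter ℂ p, TT (CM χ) (range N) (range N) k
      = ∑ a ∈ wd k (range N), ∑ b ∈ wd k (range N),
        if ((V a b : ℤ) : ZMod p) = ((U a b : ℤ) : ZMod p) ∧ ((V a b : ℤ) : ZMod p) ≠ 0
          then (p.totient : ℂ) else 0 := by
    unfold TT
    rw [Finset.sum_comm]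
    refine Finset.sum_congr rfl fun a _ => ?_
    rw [Finset.sum_comm]
    refine Finset.sum_congr rfl fun b _ => ?_
    rw [← BS1_orth]
    exact Finset.sum_congr rfl fun χ _ => e1 χ a b
  set S : Finset ((Fin k → ℕ) × (Fin k → ℕ)) :=
    (wd k (range N) ×ˢ wd k (range N)).filter
      (fun v => DD v.1 v.2 ≠ 0 ∧ IsSquare (DD v.1 v.2)) with hSd
  have hScard : (S.card : ℝ) ≤ C * (N : ℝ) ^ ((k : ℝ) + 1 + ε) := by
    refine hS N hN S fun v hv => ?_
    rw [hSd, Finset.mem_filter, Finset.mem_product, Fintype.mem_piFinset,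
      Fintype.mem_piFinset] at hv
    exact ⟨fun j => Finset.mem_range.mp (hv.1.1 j), fun j => Finset.mem_range.mp (hv.1.2 j),
      hv.2.1, hv.2.2⟩
  have hb : ∀ a ∈ wd k (range N), ∀ b ∈ wd k (range N), |U a b| ≤ (N : ℤ) ^ k ∧
      |V a b| ≤ (N : ℤ) ^ k := by
    intro a ha b hb'
    rw [Fintype.mem_piFinset] at ha hb'
    have g : ∀ x y : ℕ, x < N → y < N → |(x : ℤ) - y| ≤ N := by
      intro x y hx hy
      rw [abs_le]
      constructor <;> omega
    constructor
    · rw [hU]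
      simp only
      rw [Finset.abs_prod]
      calc ∏ i : Fin k, |(a i : ℤ) - b i| ≤ ∏ i : Fin k, (N : ℤ) :=
            Finset.prod_le_prod (fun i _ => abs_nonneg _) fun i _ =>
              g _ _ (Finset.mem_range.mp (ha i)) (Finset.mem_range.mp (hb' i))
        _ = (N : ℤ) ^ k := by rw [Finset.prod_const, Finset.card_univ, Fintype.card_fin]
    · rw [hV]
      simp only
      rw [Finset.abs_prod]
      calc ∏ i : Fin k, |((rot a i : ℕ) : ℤ) - b i| ≤ ∏ i : Fin k, (N : ℤ) :=
            Finset.prod_le_prod (fun i _ => abs_nonneg _) fun i _ =>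
              g _ _ (Finset.mem_range.mp (ha _)) (Finset.mem_range.mp (hb' i))
        _ = (N : ℤ) ^ k := by rw [Finset.prod_const, Finset.card_univ, Fintype.card_fin]
  have hNpZ : 2 * (N : ℤ) ^ k < p := by exact_mod_cast hNp
  -- the diagonal terms are squares
  have e3 : ∀ a ∈ wd k (range N), ∀ b ∈ wd k (range N),
      (if ((V a b : ℤ) : ZMod p) = ((U a b : ℤ) : ZMod p) ∧ ((V a b : ℤ) : ZMod p) ≠ 0
          then (p.totient : ℝ) else 0) ≤
      if DD a b ≠ 0 ∧ IsSquare (DD a b) then (p : ℝ) else 0 := by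
    intro a ha b hb'
    by_cases hc : ((V a b : ℤ) : ZMod p) = ((U a b : ℤ) : ZMod p) ∧ ((V a b : ℤ) : ZMod p) ≠ 0
    · rw [if_pos hc]
      obtain ⟨h1, h2⟩ := hb a ha b hb'
      have h3 : V a b = U a b := by
        have h4 := (ZMod.intCast_eq_intCast_iff_dvd_sub _ _ _).mp hc.1
        have h5 : U a b - V a b = 0 := by
          refine Int.eq_zero_of_abs_lt_dvd h4 ?_
          have := abs_sub (U a b) (V a b)
          linarith
        linarith
      have h6 : V a b ≠ 0 := by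
        intro h7
        apply hc.2
        rw [h7]
        simp
      rw [if_pos]
      · exact_mod_cast Nat.totient_le p
      · rw [hDD, ← h3]
        exact ⟨mul_ne_zero h6 h6, ⟨V a b, rfl⟩⟩
    · rw [if_neg hc]
      split_ifs <;> positivity
  have e4 : ∑ χ : DirichletCharacter ℂ p, (TT (CM χ) (range N) (range N) k).re
      = ∑ a ∈ wd k (range N), ∑ b ∈ wd k (range N),
        if ((V a b : ℤ) : ZMod p) = ((U a b : ℤ) : ZMod p) ∧ ((V a b : ℤ) : ZMod p) ≠ 0
          then (p.totient : ℝ) else 0 := by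
    rw [← Complex.re_sum, e2, Complex.re_sum]
    refine Finset.sum_congr rfl fun a _ => ?_
    rw [Complex.re_sum]
    refine Finset.sum_congr rfl fun b _ => ?_
    split_ifs
    · exact Complex.natCast_re _
    · exact Complex.zero_re
  rw [e4]
  calc ∑ a ∈ wd k (range N), ∑ b ∈ wd k (range N),
        (if ((V a b : ℤ) : ZMod p) = ((U a b : ℤ) : ZMod p) ∧ ((V a b : ℤ) : ZMod p) ≠ 0
          then (p.totient : ℝ) else 0)
      ≤ ∑ a ∈ wd k (range N), ∑ b ∈ wd k (range N),
        (if DD a b ≠ 0 ∧ IsSquare (DD a b) then (p : ℝ) else 0) :=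
        Finset.sum_le_sum fun a ha => Finset.sum_le_sum fun b hb' => e3 a ha b hb'
    _ = ∑ v ∈ wd k (range N) ×ˢ wd k (range N),
        (if DD v.1 v.2 ≠ 0 ∧ IsSquare (DD v.1 v.2) then (p : ℝ) else 0) := by
        rw [Finset.sum_product]
    _ = ∑ v ∈ S, (p : ℝ) := by rw [← Finset.sum_filter]
    _ = p * S.card := by rw [Finset.sum_const, nsmul_eq_mul, mul_comm]
    _ ≤ p * (C * (N : ℝ) ^ ((k : ℝ) + 1 + ε)) := mul_le_mul_of_nonneg_left hScard hp0.le
    _ = C * (p * (N : ℝ) ^ ((k : ℝ) + 1 + ε)) := by ring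

end Pool.Agent.ASU
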